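import Pool.Agent.helper91.SI.Spec

/-!
# Row si:CA1 (helper15, second prover)
-/

set_option autoImplicit false

namespace Pool.Agent.helper91.SI

open Pool.Agent.helper20.IG (IsIndepDom IsISet iGraph)

private theorem CA1_adj (hCYA : CYA_stmt) (n : ℕ) (hn : 3 ≤ n) (u v : Fin n) :
    (SimpleGraph.cycleGraph n).Adj u v ↔
      (u.val + 1 = v.val ∨ v.val + 1 = u.val ∨ (u.val + 1 = n ∧ v.val = 0) ∨
        (v.val + 1 = n ∧ u.val = 0)) := by
  rw [hCYA n hn u v]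
  have key : ∀ a b : Fin n, (a.val + 1) % n = b.val ↔
      (a.val + 1 = b.val ∨ (a.val + 1 = n ∧ b.val = 0)) := by
    intro a b
    have ha := a.2
    have hb := b.2
    rcases Nat.lt_or_ge (a.val + 1) n with h | h
    · rw [Nat.mod_eq_of_lt h]
      omega
    · have h' : a.val + 1 = n := by omega
      rw [h', Nat.mod_self]
      omega
  rw [key u v, key v u]
  tauto

private def CA1_Q (n a b c x : ℕ) : Prop :=
  x = a ∨ x = b ∨ x = c ∨ (7 ≤ x ∧ x % 3 = 1 ∧ x + 3 ≤ n)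

private instance CA1_dec (n a b c : ℕ) : DecidablePred (CA1_Q n a b c) := fun x => by
  unfold CA1_Q
  infer_instance

private def CA1_set (n a b c : ℕ) : Finset (Fin n) :=
  Finset.univ.filter (fun x : Fin n => CA1_Q n a b c x.val)

private theorem CA1_mem (n a b c : ℕ) (x : Fin n) :
    x ∈ CA1_set n a b c ↔ CA1_Q n a b c x.val := by
  simp [CA1_set]

private theorem CA1_dom (hCYA : CYA_stmt) (n a b c : ℕ) (hn : 3 ≤ n)
    (h1 : ∀ x, x + 1 < n → CA1_Q n a b c x → ¬ CA1_Q n a b c (x + 1))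
    (h2 : CA1_Q n a b c 0 → ¬ CA1_Q n a b c (n - 1))
    (h3 : ∀ x, x < n → ¬ CA1_Q n a b c x →
      (x + 1 < n ∧ CA1_Q n a b c (x + 1)) ∨ (1 ≤ x ∧ CA1_Q n a b c (x - 1)) ∨
        (x + 1 = n ∧ CA1_Q n a b c 0) ∨ (x = 0 ∧ CA1_Q n a b c (n - 1))) :
    IsIndepDom (SimpleGraph.cycleGraph n) (CA1_set n a b c) := by
  constructor
  · intro u hu v hv h
    rw [CA1_adj hCYA n hn] at h
    rw [CA1_mem] at hu hv
    have hu2 := u.2
    have hv2 := v.2
    rcases h with h | h | ⟨h, h'⟩ | ⟨h, h'⟩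
    · rw [← h] at hv
      exact h1 u.val (by omega) hu hv
    · rw [← h] at hu
      exact h1 v.val (by omega) hv hu
    · have e : u.val = n - 1 := by omega
      rw [h'] at hv
      rw [e] at hu
      exact h2 hv hu
    · have e : v.val = n - 1 := by omega
      rw [h'] at hu
      rw [e] at hv
      exact h2 hu hv
  · intro v hv
    rw [CA1_mem] at hv
    have hv2 := v.2
    rcases h3 v.val v.2 hv with ⟨h, h'⟩ | ⟨h, h'⟩ | ⟨h, h'⟩ | ⟨h, h'⟩
    · refine ⟨⟨v.val + 1, h⟩, (CA1_mem n a b c _).2 h', ?_⟩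
      rw [CA1_adj hCYA n hn]
      simp
    · refine ⟨⟨v.val - 1, by omega⟩, (CA1_mem n a b c _).2 h', ?_⟩
      rw [CA1_adj hCYA n hn]
      left
      show v.val - 1 + 1 = v.val
      omega
    · refine ⟨⟨0, by omega⟩, (CA1_mem n a b c _).2 h', ?_⟩
      rw [CA1_adj hCYA n hn]
      exact Or.inr (Or.inr (Or.inr ⟨h, rfl⟩))
    · refine ⟨⟨n - 1, by omega⟩, (CA1_mem n a b c _).2 h', ?_⟩
      rw [CA1_adj hCYA n hn]
      refine Or.inr (Or.inr (Or.inl ⟨?_, h⟩))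
      show n - 1 + 1 = n
      omega

private theorem CA1_card (n a b c : ℕ) (hn : 10 ≤ n) (hm : n % 3 = 1) (ha : a < n) (hb : b < n)
    (hc : c < n) : 3 * (CA1_set n a b c).card ≤ n + 2 := by
  have hsub : CA1_set n a b c ⊆ insert (⟨a, ha⟩ : Fin n) (insert (⟨b, hb⟩ : Fin n)
      (insert (⟨c, hc⟩ : Fin n) (Finset.univ.filter
        (fun x : Fin n => 7 ≤ x.val ∧ x.val % 3 = 1 ∧ x.val + 3 ≤ n)))) := by
    intro x hx
    rw [CA1_mem] at hx
    simp only [Finset.mem_insert, Finset.mem_filter, Finset.mem_univ, true_and, Fin.ext_iff]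
    exact hx
  have hpart : (Finset.univ.filter
      (fun x : Fin n => 7 ≤ x.val ∧ x.val % 3 = 1 ∧ x.val + 3 ≤ n)).card ≤
      (Finset.range (n / 3 - 2)).card := by
    refine Finset.card_le_card_of_injOn (fun x : Fin n => x.val / 3 - 2) ?_ ?_
    · intro x hx
      simp only [Finset.coe_filter, Finset.mem_univ, true_and, Set.mem_ofPred_eq] at hx
      simp only [Finset.coe_range, Set.mem_Iio]
      omega
    · intro x hx y hy hxy
      simp only [Finset.coe_filter, Finset.mem_univ, true_and, Set.mem_ofPred_eq] at hx hy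
      simp only at hxy
      apply Fin.ext
      omega
  rw [Finset.card_range] at hpart
  have h1 := Finset.card_le_card hsub
  have h2 := Finset.card_insert_le (⟨a, ha⟩ : Fin n) (insert (⟨b, hb⟩ : Fin n)
      (insert (⟨c, hc⟩ : Fin n) (Finset.univ.filter
        (fun x : Fin n => 7 ≤ x.val ∧ x.val % 3 = 1 ∧ x.val + 3 ≤ n))))
  have h3 := Finset.card_insert_le (⟨b, hb⟩ : Fin n)
      (insert (⟨c, hc⟩ : Fin n) (Finset.univ.filter
        (fun x : Fin n => 7 ≤ x.val ∧ x.val % 3 = 1 ∧ x.val + 3 ≤ n)))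
  have h4 := Finset.card_insert_le (⟨c, hc⟩ : Fin n) (Finset.univ.filter
        (fun x : Fin n => 7 ≤ x.val ∧ x.val % 3 = 1 ∧ x.val + 3 ≤ n))
  omega

private theorem CA1_iset (hLBD : LBD_stmt) (hCTT : CTT_stmt) (n a b c : ℕ) (hn : 10 ≤ n)
    (hm : n % 3 = 1) (ha : a < n) (hb : b < n) (hc : c < n)
    (hd : IsIndepDom (SimpleGraph.cycleGraph n) (CA1_set n a b c)) :
    IsISet (SimpleGraph.cycleGraph n) (CA1_set n a b c) := by
  refine ⟨hd, fun T hT => ?_⟩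
  have h1 := hLBD (Fin n) (SimpleGraph.cycleGraph n) (hCTT n (by omega)) T hT
  rw [Fintype.card_fin] at h1
  have h2 := CA1_card n a b c hn hm ha hb hc
  omega

/-- Row CA1. -/
theorem CA1 (hLBD : LBD_stmt) (hCTT : CTT_stmt) (hCYA : CYA_stmt) : CA1_stmt := by
  intro n hn hm
  have d0 : IsIndepDom (SimpleGraph.cycleGraph n) (CA1_set n 0 2 5) :=
    CA1_dom hCYA n 0 2 5 (by omega) (by unfold CA1_Q; omega) (by unfold CA1_Q; omega)
      (by unfold CA1_Q; omega)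
  have d1 : IsIndepDom (SimpleGraph.cycleGraph n) (CA1_set n (n - 1) 2 5) :=
    CA1_dom hCYA n (n - 1) 2 5 (by omega) (by unfold CA1_Q; omega) (by unfold CA1_Q; omega)
      (by unfold CA1_Q; omega)
  have d2 : IsIndepDom (SimpleGraph.cycleGraph n) (CA1_set n 0 3 5) :=
    CA1_dom hCYA n 0 3 5 (by omega) (by unfold CA1_Q; omega) (by unfold CA1_Q; omega)
      (by unfold CA1_Q; omega)
  have d3 : IsIndepDom (SimpleGraph.cycleGraph n) (CA1_set n 0 2 4) :=
    CA1_dom hCYA n 0 2 4 (by omega) (by unfold CA1_Q; omega) (by unfold CA1_Q; omega)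
      (by unfold CA1_Q; omega)
  have i0 := CA1_iset hLBD hCTT n 0 2 5 hn hm (by omega) (by omega) (by omega) d0
  have i1 := CA1_iset hLBD hCTT n (n - 1) 2 5 hn hm (by omega) (by omega) (by omega) d1
  have i2 := CA1_iset hLBD hCTT n 0 3 5 hn hm (by omega) (by omega) (by omega) d2
  have i3 := CA1_iset hLBD hCTT n 0 2 4 hn hm (by omega) (by omega) (by omega) d3
  -- different sets
  have hne : ∀ (a b c a' b' c' x : ℕ) (hx : x < n), CA1_Q n a b c x → ¬ CA1_Q n a' b' c' x →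
      CA1_set n a b c ≠ CA1_set n a' b' c' := by
    intro a b c a' b' c' x hx h1 h2 h
    have h3 : (⟨x, hx⟩ : Fin n) ∈ CA1_set n a b c := (CA1_mem n a b c _).2 h1
    rw [h, CA1_mem] at h3
    exact h2 h3
  -- edges
  have hedge : ∀ (a b c u v : ℕ) (hu : u < n) (hv : v < n)
      (i : IsISet (SimpleGraph.cycleGraph n) (CA1_set n a b c)),
      CA1_Q n 0 2 5 u → ¬ CA1_Q n 0 2 5 v → CA1_Q n a b c v →
      (u + 1 = v ∨ v + 1 = u ∨ (u + 1 = n ∧ v = 0) ∨ (v + 1 = n ∧ u = 0)) →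
      (∀ x, x < n → (CA1_Q n a b c x ↔ (x = v ∨ (x ≠ u ∧ CA1_Q n 0 2 5 x)))) →
      (iGraph (SimpleGraph.cycleGraph n)).Adj ⟨CA1_set n 0 2 5, i0⟩ ⟨CA1_set n a b c, i⟩ := by
    intro a b c u v hu hv i h1 h2 h3 h4 h5
    refine ⟨fun h => ?_, ⟨u, hu⟩, (CA1_mem n 0 2 5 _).2 h1, ⟨v, hv⟩, (CA1_mem n a b c _).2 h3,
      (CA1_adj hCYA n (by omega) _ _).2 h4, ?_⟩
    · exact hne a b c 0 2 5 v hv h3 h2 (Subtype.ext_iff.1 h).symm
    · ext x
      rw [Finset.mem_insert, Finset.mem_erase, CA1_mem, CA1_mem, h5 x.val x.2]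
      simp only [Fin.ext_iff, ne_eq]
  refine ⟨⟨CA1_set n 0 2 5, i0⟩, ⟨CA1_set n (n - 1) 2 5, i1⟩, ⟨CA1_set n 0 3 5, i2⟩,
    ⟨CA1_set n 0 2 4, i3⟩, ?_, ?_, ?_, ?_, ?_, ?_⟩
  · refine hedge (n - 1) 2 5 0 (n - 1) (by omega) (by omega) i1 ?_ ?_ ?_ ?_ ?_ <;>
      first | (unfold CA1_Q; omega) | omega
  · refine hedge 0 3 5 2 3 (by omega) (by omega) i2 ?_ ?_ ?_ ?_ ?_ <;>
      first | (unfold CA1_Q; omega) | omega
  · refine hedge 0 2 4 5 4 (by omega) (by omega) i3 ?_ ?_ ?_ ?_ ?_ <;>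
      first | (unfold CA1_Q; omega) | omega
  · intro h
    refine hne (n - 1) 2 5 0 3 5 2 (by omega) ?_ ?_ (Subtype.ext_iff.1 h) <;>
      (unfold CA1_Q; omega)
  · intro h
    refine hne (n - 1) 2 5 0 2 4 5 (by omega) ?_ ?_ (Subtype.ext_iff.1 h) <;>
      (unfold CA1_Q; omega)
  · intro h
    refine hne 0 3 5 0 2 4 3 (by omega) ?_ ?_ (Subtype.ext_iff.1 h) <;>
      (unfold CA1_Q; omega)

end Pool.Agent.helper91.SI
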